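import Pool.Agent.Helper89.Vol5.Goals

/-! # MP_cd13d2_co, packet V58-P2212 -/

set_option autoImplicit false

namespace Pool.Agent.Helper62.Vol5.PkP2212

open MeasureTheory Set Pool.Agent.Helper86.Poly Pool.Agent.Helper89.Vol5

/-- The square of the norm in coordinates. -/
lemma nsq (u v : E 5) : ‖u - v‖ ^ 2 = (u 0 - v 0) ^ 2 + (u 1 - v 1) ^ 2 + (u 2 - v 2) ^ 2 +
    (u 3 - v 3) ^ 2 + (u 4 - v 4) ^ 2 := by
  have h2 := EuclideanSpace.norm_sq_eq (u - v)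
  rw [Fin.sum_univ_five] at h2
  simp only [PiLp.sub_apply, Real.norm_eq_abs, sq_abs] at h2
  exact h2

/-- Distances in coordinates. -/
lemma coord {u v : E 5} (h : ‖u - v‖ ≤ 1) :
    (u 0 - v 0) ^ 2 + (u 1 - v 1) ^ 2 + (u 2 - v 2) ^ 2 + (u 3 - v 3) ^ 2 + (u 4 - v 4) ^ 2 ≤ 1 := by
  rw [← nsq]
  have := norm_nonneg (u - v)
  nlinarith

/-- One point and the ends of a segment. -/
lemma pt_seg {z p q : E 5} (h0 : q 0 = p 0) (h1 : q 1 = p 1) (ha : ‖z - p‖ ≤ 1)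
    (hb : ‖z - q‖ ≤ 1) : (z 0 - p 0) ^ 2 + (z 1 - p 1) ^ 2 ≤ 1 - ‖q - p‖ ^ 2 / 4 := by
  have h2 := coord ha
  have h3 := coord hb
  rw [nsq, h0, h1]
  rw [h0, h1] at h3
  linarith [sq_nonneg (2 * (z 2 - p 2) - (q 2 - p 2)), sq_nonneg (2 * (z 3 - p 3) - (q 3 - p 3)),
    sq_nonneg (2 * (z 4 - p 4) - (q 4 - p 4))]

/-- Two segments. -/
lemma seg_seg {p q p' q' : E 5} (h0 : q 0 = p 0) (h1 : q 1 = p 1) (h0' : q' 0 = p' 0)
    (h1' : q' 1 = p' 1) (ha : ‖p - p'‖ ≤ 1) (hb : ‖p - q'‖ ≤ 1) (hc : ‖q - p'‖ ≤ 1)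
    (hd : ‖q - q'‖ ≤ 1) :
    (p 0 - p' 0) ^ 2 + (p 1 - p' 1) ^ 2 ≤ 1 - (‖q' - p'‖ ^ 2 + ‖q - p‖ ^ 2) / 4 := by
  have a := coord ha
  have b := coord hb
  have c := coord hc
  have d := coord hd
  rw [nsq, nsq, h0, h1, h0', h1']
  rw [h0', h1'] at b d
  rw [h0, h1] at c d
  linarith [sq_nonneg (p 2 + q 2 - p' 2 - q' 2), sq_nonneg (p 3 + q 3 - p' 3 - q' 3),
    sq_nonneg (p 4 + q 4 - p' 4 - q' 4)]

theorem thm (h : G_Q2212) (hF : G_FRM5) (hA : G_AX) : G_P2212 := by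
  intro y hy
  obtain ⟨L, ε, hε, hdt, he0, he1, hf0, hf1, hg0, hg1, hn1, hn0⟩ :=
    hF (y 1 - y 0) (y 3 - y 2) (y 6 - y 5) (y 2 - y 0)
  obtain ⟨x, hx⟩ : ∃ x : Fin 8 → E 5, ∀ k, x k = L (y k - y 0) := ⟨_, fun _ => rfl⟩
  have hsub : ∀ i j, x i - x j = L (y i - y j) := by
    intro i j
    rw [hx, hx, ← map_sub]
    congr 1
    abel
  have hd : ∀ i j, ‖x i - x j‖ ≤ 1 := by
    intro i j
    rw [hsub, LinearIsometryEquiv.norm_map, ← dist_eq_norm]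
    exact hy i j
  have hx0 : ∀ m : Fin 5, x 0 m = 0 := by
    intro m
    rw [hx]
    simp
  have k10 : (x 1 - x 0) 0 = 0 := by rw [hsub]; exact he0
  have k11 : (x 1 - x 0) 1 = 0 := by rw [hsub]; exact he1
  have k20 : (x 3 - x 2) 0 = 0 := by rw [hsub]; exact hf0
  have k21 : (x 3 - x 2) 1 = 0 := by rw [hsub]; exact hf1
  have k30 : (x 6 - x 5) 0 = 0 := by rw [hsub]; exact hg0
  have k31 : (x 6 - x 5) 1 = 0 := by rw [hsub]; exact hg1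
  obtain ⟨D, hD, hDn, -, -⟩ := hA _ _ _ k10 k11 k20 k21 k30 k31
  have b1 : x 2 1 = 0 := by rw [hx]; exact hn1
  have b0 : 0 ≤ x 2 0 := by rw [hx]; exact hn0
  rw [PiLp.sub_apply] at k10 k11 k20 k21 k30 k31
  replace k10 := sub_eq_zero.1 k10
  replace k11 := sub_eq_zero.1 k11
  replace k20 := sub_eq_zero.1 k20
  replace k21 := sub_eq_zero.1 k21
  replace k30 := sub_eq_zero.1 k30
  replace k31 := sub_eq_zero.1 k31
  -- the determinants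
  have hB : ∀ p q : E 5, ε * dt (y 1 - y 0) (y 3 - y 2) (y 6 - y 5) p q =
      D * (L p 0 * L q 1 - L p 1 * L q 0) := by
    intro p q
    rw [← hdt, ← hsub 1 0, ← hsub 3 2, ← hsub 6 5]
    exact hD _ _
  have hP : ε * q2212 y = D * (x 2 0 * x 4 1 + (x 4 0 * x 5 1 - x 4 1 * x 5 0) +
      (x 5 0 * x 7 1 - x 5 1 * x 7 0)) := by
    have : ε * q2212 y = ε * dt (y 1 - y 0) (y 3 - y 2) (y 6 - y 5) (y 2 - y 0) (y 4 - y 0) +
        ε * dt (y 1 - y 0) (y 3 - y 2) (y 6 - y 5) (y 4 - y 0) (y 5 - y 0) +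
        ε * dt (y 1 - y 0) (y 3 - y 2) (y 6 - y 5) (y 5 - y 0) (y 7 - y 0) := by
      unfold q2212
      ring
    rw [this, hB, hB, hB, ← hx 2, ← hx 4, ← hx 5, ← hx 7, b1]
    ring
  have hab : |q2212 y| = |ε * q2212 y| := by
    rcases hε with rfl | rfl
    · rw [one_mul]
    · rw [neg_one_mul, abs_neg]
  rw [hab, hP, abs_mul]
  -- the distances
  have A4 := pt_seg k10 k11 (hd 4 0) (hd 4 1)
  have A7 := pt_seg k10 k11 (hd 7 0) (hd 7 1)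
  have B4 := pt_seg k20 k21 (hd 4 2) (hd 4 3)
  have B7 := pt_seg k20 k21 (hd 7 2) (hd 7 3)
  have S1 := seg_seg k30 k31 k10 k11 (hd 5 0) (hd 5 1) (hd 6 0) (hd 6 1)
  have S2 := seg_seg k30 k31 k20 k21 (hd 5 2) (hd 5 3) (hd 6 2) (hd 6 3)
  have S3 := seg_seg k20 k21 k10 k11 (hd 2 0) (hd 2 1) (hd 3 0) (hd 3 1)
  have U := coord (hd 4 7)
  rw [hx0, hx0, sub_zero, sub_zero] at A4 A7 S1 S3
  rw [b1, sub_zero] at B4 B7 S2
  rw [b1] at S3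
  have key := h ‖x 1 - x 0‖ ‖x 3 - x 2‖ ‖x 6 - x 5‖ (x 2 0) (x 4 0) (x 4 1) (x 5 0) (x 5 1)
    (x 7 0) (x 7 1) (norm_nonneg _) (hd 1 0) (norm_nonneg _) (hd 3 2) (norm_nonneg _) (hd 6 5) b0
    A4 S1 A7 B4 S2 B7 (by linarith) (by
      linarith [sq_nonneg (x 4 2 - x 7 2), sq_nonneg (x 4 3 - x 7 3), sq_nonneg (x 4 4 - x 7 4)])
  refine le_trans ?_ key
  exact mul_le_mul_of_nonneg_right hDn (abs_nonneg _)

end Pool.Agent.Helper62.Vol5.PkP2212
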